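import Pool.Agent.Helper96.GB.Frames

/-! Open sets of automorphisms. -/

set_option autoImplicit false

open Set Filter Metric Topology

namespace Pool.Agent.Helper33.GB

open Pool.Agent.Helper96.GB

theorem continuous_pair : Continuous Aut2.pair := continuous_induced_dom

theorem continuous_map {T : Type*} [TopologicalSpace T] {f : T → Aut2} {g : T → E}
    (hf : Continuous f) (hg : Continuous g) : Continuous fun s => (f s).F (g s) := by
  have h1 : Continuous fun s => ((f s).pair.1, g s) :=
    ((continuous_fst.comp (continuous_pair.comp hf))).prodMk hg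
  exact (ContinuousEval.continuous_eval (F := C(E, E))).comp h1

theorem continuous_iter (x : E) (k : ℕ) : Continuous fun A : Aut2 => A.F^[k] x := by
  induction k with
  | zero => exact continuous_const
  | succ k ih =>
    have h : (fun A : Aut2 => A.F^[k + 1] x) = fun A : Aut2 => A.F (A.F^[k] x) := by
      funext A
      rw [Function.iterate_succ_apply']
    rw [h]
    exact continuous_map continuous_id ih

theorem s_OpenEnter : S_OpenEnter := by
  intro U t r
  have h : {A : Aut2 | ∃ x ∈ U, ∃ k : ℕ, A.F^[k] x ∈ ball t (4 * r)} =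
      ⋃ x ∈ U, ⋃ k : ℕ, {A : Aut2 | A.F^[k] x ∈ ball t (4 * r)} := by
    ext A
    simp
  rw [h]
  exact isOpen_biUnion fun x _ => isOpen_iUnion fun k => isOpen_ball.preimage (continuous_iter x k)

theorem s_OpenTrap : S_OpenTrap := by
  intro M
  have h : {A : Aut2 | ∃ (t : E) (r : ℝ), Trap A.F t r 1 ∧ M < ‖t‖ - 4 * r} =
      ⋃ t : E, ⋃ r : ℝ, {A : Aut2 | Trap A.F t r 1 ∧ M < ‖t‖ - 4 * r} := by
    ext A
    simp
  rw [h]
  refine isOpen_iUnion fun t => isOpen_iUnion fun r => ?_
  by_cases hr : 0 < r ∧ M < ‖t‖ - 4 * r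
  · have h2 : {A : Aut2 | Trap A.F t r 1 ∧ M < ‖t‖ - 4 * r} =
        (fun A : Aut2 => A.pair.1) ⁻¹' {f : C(E, E) | MapsTo f (closedBall t (4 * r)) (ball t r)} := by
      ext A
      constructor
      · rintro ⟨⟨_, _, h1⟩, _⟩ x hx
        exact h1 x hx
      · intro h1
        exact ⟨⟨hr.1, one_pos, fun x hx => h1 hx⟩, hr.2⟩
    rw [h2]
    exact (ContinuousMap.isOpen_setOfPred_mapsTo (isCompact_closedBall t (4 * r)) isOpen_ball).preimage
      (continuous_fst.comp continuous_pair)
  · have h2 : {A : Aut2 | Trap A.F t r 1 ∧ M < ‖t‖ - 4 * r} = ∅ := by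
      ext A
      simp only [mem_ofPred_eq, mem_empty_iff_false, iff_false]
      rintro ⟨⟨h1, _, _⟩, h2⟩
      exact hr ⟨h1, h2⟩
    rw [h2]
    exact isOpen_empty

theorem s_OpenGrow : S_OpenGrow := by
  intro j
  have h : {A : Aut2 | ∃ x : E, (j : ℝ) * (1 + ‖x‖) ^ j < ‖A.F x‖} =
      ⋃ x : E, {A : Aut2 | (j : ℝ) * (1 + ‖x‖) ^ j < ‖A.F x‖} := by
    ext A
    simp
  rw [h]
  exact isOpen_iUnion fun x => isOpen_lt continuous_const
    (continuous_norm.comp (continuous_map continuous_id continuous_const))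

end Pool.Agent.Helper33.GB
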