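import Pool.Agent.Helper96.GB.Frames2
import Pool.Agent.Helper33.GB.Open

/-! The far traps form an open set. -/

set_option autoImplicit false

open Set Filter Metric Topology

namespace Pool.Agent.Helper33.GB

open Pool.Agent.Helper96.GB

/-- The iterate as a continuous map. -/
noncomputable def itC (A : Aut2) : ℕ → C(E, E)
  | 0 => ContinuousMap.id E
  | n + 1 => A.pair.1.comp (itC A n)

theorem itC_apply (A : Aut2) (n : ℕ) (x : E) : itC A n x = A.F^[n] x := by
  induction n with
  | zero => rfl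
  | succ n ih =>
    rw [Function.iterate_succ_apply', ← ih]
    rfl

theorem continuous_itC (n : ℕ) : Continuous fun A : Aut2 => itC A n := by
  induction n with
  | zero => exact continuous_const
  | succ n ih => exact (continuous_fst.comp continuous_pair).compCM ih

theorem s_OpenFar : S_OpenFar := by
  intro M
  have h : {A : Aut2 | FarTrap M A.F} =
      ⋃ t : E, ⋃ r : ℝ, ⋃ r' : ℝ, ⋃ n : ℕ, {A : Aut2 | 0 < r' ∧ r' ≤ r ∧ 0 < n ∧
        (∀ x ∈ closedBall t (4 * r), A.F^[n] x ∈ ball t r') ∧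
        (∀ x ∈ closedBall t r', A.F x ∈ ball t (4 * r)) ∧ M < ‖t‖ - 4 * r} := by
    ext A
    simp [FarTrap]
  rw [h]
  refine isOpen_iUnion fun t => isOpen_iUnion fun r => isOpen_iUnion fun r' =>
    isOpen_iUnion fun n => ?_
  by_cases hr : 0 < r' ∧ r' ≤ r ∧ 0 < n ∧ M < ‖t‖ - 4 * r
  · have h2 : {A : Aut2 | 0 < r' ∧ r' ≤ r ∧ 0 < n ∧
        (∀ x ∈ closedBall t (4 * r), A.F^[n] x ∈ ball t r') ∧
        (∀ x ∈ closedBall t r', A.F x ∈ ball t (4 * r)) ∧ M < ‖t‖ - 4 * r} =
        (fun A : Aut2 => itC A n) ⁻¹'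
          {f : C(E, E) | MapsTo f (closedBall t (4 * r)) (ball t r')} ∩
        (fun A : Aut2 => A.pair.1) ⁻¹'
          {f : C(E, E) | MapsTo f (closedBall t r') (ball t (4 * r))} := by
      ext A
      constructor
      · rintro ⟨_, _, _, h1, h2, _⟩
        refine ⟨fun x hx => ?_, fun x hx => h2 x hx⟩
        have h3 := h1 x hx
        rw [← itC_apply] at h3
        exact h3
      · rintro ⟨h1, h2⟩
        refine ⟨hr.1, hr.2.1, hr.2.2.1, fun x hx => ?_, fun x hx => h2 hx, hr.2.2.2⟩
        have h3 := h1 hx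
        rw [itC_apply] at h3
        exact h3
    rw [h2]
    exact ((ContinuousMap.isOpen_setOfPred_mapsTo (isCompact_closedBall t (4 * r))
      isOpen_ball).preimage (continuous_itC n)).inter
      ((ContinuousMap.isOpen_setOfPred_mapsTo (isCompact_closedBall t r') isOpen_ball).preimage
      (continuous_fst.comp continuous_pair))
  · have h2 : {A : Aut2 | 0 < r' ∧ r' ≤ r ∧ 0 < n ∧
        (∀ x ∈ closedBall t (4 * r), A.F^[n] x ∈ ball t r') ∧
        (∀ x ∈ closedBall t r', A.F x ∈ ball t (4 * r)) ∧ M < ‖t‖ - 4 * r} = ∅ := by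
      ext A
      simp only [mem_ofPred_eq, mem_empty_iff_false, iff_false]
      rintro ⟨h1, h2, h3, _, _, h4⟩
      exact hr ⟨h1, h2, h3, h4⟩
    rw [h2]
    exact isOpen_empty

end Pool.Agent.Helper33.GB
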